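import Mathlib
import Pool.Agent.R4.EP.Core

/-!
# Edge-pancyclic graphs with at most `(2 - 1/42) n` edges

For every `j` there is an edge-pancyclic graph on `n = 84 * 2 ^ j - 58` vertices with at most
`2 n - 2 ^ (j + 1) < (2 - 1 / 42) n` edges. So the lower bound `2 n - o(n)` for the number of edges of
edge-pancyclic graphs fails.
-/

set_option autoImplicit false

namespace Pool.Agent.Results.MP_43a9c1_co.LinearSaving

/-- A graph on `n` vertices is edge-pancyclic if every edge lies in a cycle of length `k` for every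
`k` with `3 ≤ k ≤ n`. -/
def EdgePancyclic {n : ℕ} (G : SimpleGraph (Fin n)) : Prop :=
  ∀ e ∈ G.edgeSet, ∀ k : ℕ, 3 ≤ k → k ≤ n →
    ∃ (v : Fin n) (c : G.Walk v v), c.IsCycle ∧ c.length = k ∧ e ∈ c.edges

/-- For infinitely many `n` there is an edge-pancyclic graph on `n` vertices (with at least one edge)
with fewer than `(2 - 1/42) n` edges. This is the negated form of the question, with `ε = 1/42`. -/
theorem result : ∀ N : ℕ, ∃ n ≥ N, ∃ G : SimpleGraph (Fin n), G.edgeSet.Nonempty ∧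
    EdgePancyclic G ∧ (G.edgeSet.ncard : ℝ) < (2 - 1 / 42) * n := by
  intro N
  obtain ⟨G, h2, h3, h4⟩ := Pool.Agent.R4.EP.main N
  have h5 : N < 2 ^ N := Nat.lt_two_pow_self
  have h6 : 1 ≤ 2 ^ N := Nat.one_le_two_pow
  refine ⟨84 * 2 ^ N - 58, by omega, G, h2, h3, ?_⟩
  have h7 : 42 * G.edgeSet.ncard < 83 * (84 * 2 ^ N - 58) := by
    rw [pow_succ] at h4
    omega
  have h8 : (42 : ℝ) * G.edgeSet.ncard < 83 * ((84 * 2 ^ N - 58 : ℕ) : ℝ) := by
    exact_mod_cast h7
  have h9 : ((2 : ℝ) - 1 / 42) * ((84 * 2 ^ N - 58 : ℕ) : ℝ) =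
      83 * ((84 * 2 ^ N - 58 : ℕ) : ℝ) / 42 := by ring
  rw [h9, lt_div_iff₀ (by norm_num)]
  linarith

end Pool.Agent.Results.MP_43a9c1_co.LinearSaving
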